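import Pool.Agent.helper80.SV.Spec

/-!
# Project sv: (MP_b5a345_ag), module BCA: the drop lemma
-/

set_option autoImplicit false
set_option linter.unusedSectionVars false

namespace Pool.Agent.SV

open MvPolynomial Module

section

variable {E P J : Type} [AddCommGroup E] [Module ℂ E] [AddCommGroup P] [Module ℂ P]

/-- conditions of type true at the points with index in `S`, of type false at those in `T` -/
def BCA_K (Φ : Bool → P → E →ₗ[ℂ] (J → ℂ)) {n : ℕ} (x y : Fin n → P) (S T : Finset (Fin n)) :
    Submodule ℂ E :=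
  (⨅ i ∈ S, LinearMap.ker (Φ true (x i))) ⊓ (⨅ i ∈ T, LinearMap.ker (Φ false (y i)))

theorem BCA_mem {Φ : Bool → P → E →ₗ[ℂ] (J → ℂ)} {n : ℕ} {x y : Fin n → P}
    {S T : Finset (Fin n)} {v : E} :
    v ∈ BCA_K Φ x y S T ↔ (∀ i ∈ S, Φ true (x i) v = 0) ∧ ∀ i ∈ T, Φ false (y i) v = 0 := by
  simp [BCA_K, Submodule.mem_iInf]

theorem BCA_mono {Φ : Bool → P → E →ₗ[ℂ] (J → ℂ)} {n : ℕ} {x y : Fin n → P}
    {S T S' T' : Finset (Fin n)} (hS : S ⊆ S') (hT : T ⊆ T') :
    BCA_K Φ x y S' T' ≤ BCA_K Φ x y S T := by
  intro v hv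
  rw [BCA_mem] at hv ⊢
  exact ⟨fun i hi => hv.1 i (hS hi), fun i hi => hv.2 i (hT hi)⟩

theorem BCA_rank {F : Type} [Module.Finite ℂ E] [AddCommGroup F] [Module ℂ F]
    (K : Submodule ℂ E) (φ : E →ₗ[ℂ] F) :
    finrank ℂ ↥(K.map φ) + finrank ℂ ↥(K ⊓ LinearMap.ker φ) = finrank ℂ ↥K := by
  have h := LinearMap.finrank_range_add_finrank_ker (φ.domRestrict K)
  have h1 : LinearMap.range (φ.domRestrict K) = K.map φ := by
    ext w
    constructor
    · rintro ⟨v, rfl⟩
      exact ⟨v.1, v.2, rfl⟩
    · rintro ⟨v, hv, rfl⟩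
      exact ⟨⟨v, hv⟩, rfl⟩
  have h2 : Submodule.map K.subtype (LinearMap.ker (φ.domRestrict K)) = K ⊓ LinearMap.ker φ := by
    ext w
    constructor
    · rintro ⟨v, hv, rfl⟩
      exact ⟨v.2, hv⟩
    · rintro ⟨hw, hw2⟩
      exact ⟨⟨w, hw⟩, hw2, rfl⟩
  have h3 : finrank ℂ ↥(LinearMap.ker (φ.domRestrict K)) = finrank ℂ ↥(K ⊓ LinearMap.ker φ) := by
    rw [← h2]
    exact (LinearEquiv.finrank_eq
      (Submodule.equivMapOfInjective K.subtype K.injective_subtype _))
  rw [h1, h3] at h
  exact h

/-- all finite sets of indices give the minimal dimension -/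
def BCA_U (Φ : Bool → P → E →ₗ[ℂ] (J → ℂ)) {n : ℕ} (x y : Fin n → P) : Prop :=
  ∀ S T : Finset (Fin n), finrank ℂ ↥(BCA_K Φ x y S T) = dmin Φ S.card T.card

theorem BCA_U_of_uniform {Φ : Bool → P → E →ₗ[ℂ] (J → ℂ)} {n : ℕ} {x y : Fin n → P}
    (h : Uniform Φ n x y) : BCA_U Φ x y := by
  intro S T
  have h1 := h S.card T.card (S.orderEmbOfFin rfl).toEmbedding (T.orderEmbOfFin rfl).toEmbedding
  rw [← h1]
  have h2 : BCA_K Φ x y S T = Ker Φ (x ∘ (S.orderEmbOfFin rfl).toEmbedding)
      (y ∘ (T.orderEmbOfFin rfl).toEmbedding) := by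
    ext v
    rw [BCA_mem, mem_Ker]
    constructor
    · rintro ⟨hv1, hv2⟩
      exact ⟨fun i => hv1 _ (Finset.orderEmbOfFin_mem S rfl i),
        fun i => hv2 _ (Finset.orderEmbOfFin_mem T rfl i)⟩
    · rintro ⟨hv1, hv2⟩
      constructor
      · intro i hi
        have hi2 : i ∈ Set.range (S.orderEmbOfFin rfl) := by
          rw [Finset.range_orderEmbOfFin]
          exact hi
        obtain ⟨j, rfl⟩ := hi2
        exact hv1 j
      · intro i hi
        have hi2 : i ∈ Set.range (T.orderEmbOfFin rfl) := by
          rw [Finset.range_orderEmbOfFin]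
          exact hi
        obtain ⟨j, rfl⟩ := hi2
        exact hv2 j
  rw [h2]

theorem BCA_card [Module.Finite ℂ E] {Φ : Bool → P → E →ₗ[ℂ] (J → ℂ)} {n : ℕ}
    {x y : Fin n → P} (h : BCA_U Φ x y) (S T : Finset (Fin n)) (o : Fin n) (ho : o ∉ T) :
    finrank ℂ ↥((BCA_K Φ x y S T).map (Φ false (y o))) = cc Φ S.card T.card := by
  have h1 := BCA_rank (BCA_K Φ x y S T) (Φ false (y o))
  have h2 : BCA_K Φ x y S T ⊓ LinearMap.ker (Φ false (y o)) = BCA_K Φ x y S (insert o T) := by
    ext v
    rw [Submodule.mem_inf, BCA_mem, BCA_mem, LinearMap.mem_ker]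
    constructor
    · rintro ⟨⟨hv1, hv2⟩, hv3⟩
      refine ⟨hv1, ?_⟩
      intro i hi
      rcases Finset.mem_insert.mp hi with rfl | hi
      · exact hv3
      · exact hv2 i hi
    · rintro ⟨hv1, hv2⟩
      exact ⟨⟨hv1, fun i hi => hv2 i (Finset.mem_insert_of_mem hi)⟩,
        hv2 o (Finset.mem_insert_self o T)⟩
  rw [h2, h S T, h S (insert o T), Finset.card_insert_of_notMem ho] at h1
  unfold cc
  omega

/-- exchanging the elements one after the other -/
theorem BCA_chain {A B : Type*} [DecidableEq A] (F : Finset A → B) (G : A → Prop) (a : ℕ)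
    (h : ∀ (S : Finset A) (i j : A), S.card = a → i ∈ S → j ∉ S → (∀ k ∈ S, G k) → G j →
      F (insert j (S.erase i)) = F S) :
    ∀ (m : ℕ) (S S' : Finset A), (S \ S').card = m → S.card = a → S'.card = a →
      (∀ k ∈ S, G k) → (∀ k ∈ S', G k) → F S = F S' := by
  intro m
  induction m with
  | zero =>
    intro S S' hm hS hS' _ _
    have h1 : S ⊆ S' := by
      rw [Finset.card_eq_zero, Finset.sdiff_eq_empty_iff_subset] at hm
      exact hm
    rw [Finset.eq_of_subset_of_card_le h1 (by omega)]
  | succ m ih =>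
    intro S S' hm hS hS' hG hG'
    have h1 : (S \ S').Nonempty := by
      rw [← Finset.card_pos]
      omega
    obtain ⟨i, hi⟩ := h1
    rw [Finset.mem_sdiff] at hi
    have h2 : (S' \ S).Nonempty := by
      rw [← Finset.card_pos]
      have h3 := Finset.card_sdiff_add_card_inter S S'
      have h4 := Finset.card_sdiff_add_card_inter S' S
      rw [Finset.inter_comm] at h4
      omega
    obtain ⟨j, hj⟩ := h2
    rw [Finset.mem_sdiff] at hj
    have h5 := h S i j hS hi.1 hj.2 hG (hG' j hj.1)
    rw [← h5]
    have hc : (insert j (S.erase i)).card = a := by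
      rw [Finset.card_insert_of_notMem (fun hh => hj.2 (Finset.mem_of_mem_erase hh)),
        Finset.card_erase_of_mem hi.1]
      have := Finset.card_pos.mpr ⟨i, hi.1⟩
      omega
    apply ih _ _ ?_ hc hS' ?_ hG'
    · have h6 : insert j (S.erase i) \ S' = (S \ S').erase i := by
        ext k
        simp only [Finset.mem_sdiff, Finset.mem_insert, Finset.mem_erase]
        constructor
        · rintro ⟨h7 | h7, h8⟩
          · exact absurd (h7 ▸ hj.1) h8
          · exact ⟨h7.1, h7.2, h8⟩
        · rintro ⟨h7, h8, h9⟩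
          exact ⟨Or.inr ⟨h7, h8⟩, h9⟩
      rw [h6, Finset.card_erase_of_mem (Finset.mem_sdiff.mpr hi), hm]
      rfl
    · intro k hk
      rcases Finset.mem_insert.mp hk with rfl | hk
      · exact hG' _ hj.1
      · exact hG k (Finset.mem_of_mem_erase hk)

/-- the exchange argument -/
theorem BCA_exchange [Module.Finite ℂ E] {Φ : Bool → P → E →ₗ[ℂ] (J → ℂ)} [Finite J] {n : ℕ}
    {x y : Fin n → P} (h : BCA_U Φ x y) (a b : ℕ) (hc1 : cc Φ (a + 1) b = cc Φ a b)
    (hc2 : cc Φ a (b + 1) = cc Φ a b) (o : Fin n) (S S' T T' : Finset (Fin n))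
    (hS : S.card = a) (hS' : S'.card = a) (hT : T.card = b) (hT' : T'.card = b)
    (ho : o ∉ T) (ho' : o ∉ T') :
    (BCA_K Φ x y S T).map (Φ false (y o)) = (BCA_K Φ x y S' T').map (Φ false (y o)) := by
  have key : ∀ S₁ T₁ S₂ T₂ : Finset (Fin n), S₁ ⊆ S₂ → T₁ ⊆ T₂ → o ∉ T₂ →
      cc Φ S₂.card T₂.card = cc Φ S₁.card T₁.card →
      (BCA_K Φ x y S₂ T₂).map (Φ false (y o)) = (BCA_K Φ x y S₁ T₁).map (Φ false (y o)) := by
    intro S₁ T₁ S₂ T₂ h1 h2 h3 h4
    apply Submodule.eq_of_le_of_finrank_eq
    · exact Submodule.map_mono (BCA_mono h1 h2)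
    · rw [BCA_card h _ _ o h3, BCA_card h _ _ o (fun hh => h3 (h2 hh)), h4]
  have e1 : (BCA_K Φ x y S T).map (Φ false (y o)) = (BCA_K Φ x y S' T).map (Φ false (y o)) := by
    refine BCA_chain (fun S => (BCA_K Φ x y S T).map (Φ false (y o))) (fun _ => True) a ?_
      _ S S' rfl hS hS' (fun _ _ => trivial) (fun _ _ => trivial)
    intro S i j hS hi hj _ _
    have hc : (insert j (S.erase i)).card = a := by
      rw [Finset.card_insert_of_notMem (fun hh => hj (Finset.mem_of_mem_erase hh)),
        Finset.card_erase_of_mem hi]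
      have := Finset.card_pos.mpr ⟨i, hi⟩
      omega
    have hc2 : (insert j S).card = a + 1 := by
      rw [Finset.card_insert_of_notMem hj, hS]
    have k1 := key S T (insert j S) T (Finset.subset_insert j S) (Finset.Subset.refl T) ho
      (by rw [hc2, hS, hT, hc1])
    have k2 := key (insert j (S.erase i)) T (insert j S) T
      (Finset.insert_subset_insert j (Finset.erase_subset i S)) (Finset.Subset.refl T) ho
      (by rw [hc2, hc, hT, hc1])
    exact k2.symm.trans k1
  have e2 : (BCA_K Φ x y S' T).map (Φ false (y o)) = (BCA_K Φ x y S' T').map (Φ false (y o)) := by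
    refine BCA_chain (fun T => (BCA_K Φ x y S' T).map (Φ false (y o))) (fun k => k ≠ o) b ?_
      _ T T' rfl hT hT' (fun k hk hh => ho (hh ▸ hk)) (fun k hk hh => ho' (hh ▸ hk))
    intro T i j hT hi hj hG hGj
    have hc : (insert j (T.erase i)).card = b := by
      rw [Finset.card_insert_of_notMem (fun hh => hj (Finset.mem_of_mem_erase hh)),
        Finset.card_erase_of_mem hi]
      have := Finset.card_pos.mpr ⟨i, hi⟩
      omega
    have hcc : (insert j T).card = b + 1 := by
      rw [Finset.card_insert_of_notMem hj, hT]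
    have ho2 : o ∉ insert j T := by
      intro hh
      rcases Finset.mem_insert.mp hh with hh | hh
      · exact hGj hh.symm
      · exact hG o hh rfl
    have k1 := key S' T S' (insert j T) (Finset.Subset.refl S') (Finset.subset_insert j T) ho2
      (by rw [hcc, hS', hT, hc2])
    have k2 := key S' (insert j (T.erase i)) S' (insert j T) (Finset.Subset.refl S')
      (Finset.insert_subset_insert j (Finset.erase_subset i T)) ho2
      (by rw [hcc, hS', hc, hc2])
    exact k2.symm.trans k1
  exact e1.trans e2

/-- a polynomial path starting at a uniform configuration is uniform for almost all parameters -/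
theorem BCA_curve (hT1 : T1_stmt) [Module.Finite ℂ E] [Finite J]
    {Φ : Bool → P → E →ₗ[ℂ] (J → ℂ)} {n : ℕ} (x y : ℂ → Fin n → P)
    (hx : ∀ i v j, PolyFun (fun t => Φ true (x t i) v j))
    (hy : ∀ i v j, PolyFun (fun t => Φ false (y t i) v j))
    (h0 : BCA_U Φ (x 0) (y 0)) : {t : ℂ | ¬ BCA_U Φ (x t) (y t)}.Finite := by
  have key : ∀ S T : Finset (Fin n),
      {t : ℂ | ¬ finrank ℂ ↥(BCA_K Φ (x t) (y t) S T) ≤ dmin Φ S.card T.card}.Finite := by
    intro S T
    let B : ℂ → E →ₗ[ℂ] ((Fin n ⊕ Fin n) × J → ℂ) := fun t =>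
      LinearMap.pi (fun p : (Fin n ⊕ Fin n) × J =>
        Sum.elim (fun i => if i ∈ S then (LinearMap.proj p.2) ∘ₗ (Φ true (x t i)) else 0)
          (fun i => if i ∈ T then (LinearMap.proj p.2) ∘ₗ (Φ false (y t i)) else 0) p.1)
    have hB1 : ∀ t v i j, B t v (Sum.inl i, j) = if i ∈ S then Φ true (x t i) v j else 0 := by
      intro t v i j
      change (if i ∈ S then (LinearMap.proj j) ∘ₗ (Φ true (x t i)) else 0) v = _
      by_cases hi : i ∈ S
      · rw [if_pos hi, if_pos hi]
        rfl
      · rw [if_neg hi, if_neg hi]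
        rfl
    have hB2 : ∀ t v i j, B t v (Sum.inr i, j) = if i ∈ T then Φ false (y t i) v j else 0 := by
      intro t v i j
      change (if i ∈ T then (LinearMap.proj j) ∘ₗ (Φ false (y t i)) else 0) v = _
      by_cases hi : i ∈ T
      · rw [if_pos hi, if_pos hi]
        rfl
      · rw [if_neg hi, if_neg hi]
        rfl
    have hker : ∀ t, LinearMap.ker (B t) = BCA_K Φ (x t) (y t) S T := by
      intro t
      ext v
      rw [LinearMap.mem_ker, BCA_mem]
      constructor
      · intro hv
        constructor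
        · intro i hi
          funext j
          have h1 := congrFun hv (Sum.inl i, j)
          rw [hB1, if_pos hi] at h1
          exact h1
        · intro i hi
          funext j
          have h1 := congrFun hv (Sum.inr i, j)
          rw [hB2, if_pos hi] at h1
          exact h1
      · rintro ⟨hv1, hv2⟩
        funext p
        obtain ⟨i | i, j⟩ := p
        · rw [hB1]
          by_cases hi : i ∈ S
          · rw [if_pos hi, hv1 i hi]
            rfl
          · rw [if_neg hi]
            rfl
        · rw [hB2]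
          by_cases hi : i ∈ T
          · rw [if_pos hi, hv2 i hi]
            rfl
          · rw [if_neg hi]
            rfl
    have hpoly : ∀ v p, PolyFun (fun t => B t v p) := by
      rintro v ⟨i | i, j⟩
      · by_cases hi : i ∈ S
        · have h1 : (fun t => B t v (Sum.inl i, j)) = fun t => Φ true (x t i) v j := by
            funext t
            rw [hB1, if_pos hi]
          rw [h1]
          exact hx i v j
        · have h1 : (fun t => B t v (Sum.inl i, j)) = fun _ => (0 : ℂ) := by
            funext t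
            rw [hB1, if_neg hi]
          rw [h1]
          exact PolyFun.const 0
      · by_cases hi : i ∈ T
        · have h1 : (fun t => B t v (Sum.inr i, j)) = fun t => Φ false (y t i) v j := by
            funext t
            rw [hB2, if_pos hi]
          rw [h1]
          exact hy i v j
        · have h1 : (fun t => B t v (Sum.inr i, j)) = fun _ => (0 : ℂ) := by
            funext t
            rw [hB2, if_neg hi]
          rw [h1]
          exact PolyFun.const 0
    have h2 := hT1 B hpoly (dmin Φ S.card T.card) 0 (by rw [hker, h0 S T])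
    refine h2.subset ?_
    intro t ht
    rw [Set.mem_setOf_eq, hker]
    exact ht
  have hfin : (⋃ p : Finset (Fin n) × Finset (Fin n),
      {t : ℂ | ¬ finrank ℂ ↥(BCA_K Φ (x t) (y t) p.1 p.2) ≤ dmin Φ p.1.card p.2.card}).Finite :=
    Set.finite_iUnion (fun p => key p.1 p.2)
  refine hfin.subset ?_
  intro t ht
  rw [Set.mem_setOf_eq] at ht
  rw [Set.mem_iUnion]
  by_contra hcon
  apply ht
  intro S T
  have h1 : finrank ℂ ↥(BCA_K Φ (x t) (y t) S T) ≤ dmin Φ S.card T.card := by
    by_contra hc
    exact hcon ⟨(S, T), hc⟩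
  have h2 : dmin Φ S.card T.card ≤ finrank ℂ ↥(BCA_K Φ (x t) (y t) S T) := by
    have h3 : BCA_K Φ (x t) (y t) S T = Ker Φ (x t ∘ (S.orderEmbOfFin rfl))
        (y t ∘ (T.orderEmbOfFin rfl)) := by
      ext v
      rw [BCA_mem, mem_Ker]
      constructor
      · rintro ⟨hv1, hv2⟩
        exact ⟨fun i => hv1 _ (Finset.orderEmbOfFin_mem S rfl i),
          fun i => hv2 _ (Finset.orderEmbOfFin_mem T rfl i)⟩
      · rintro ⟨hv1, hv2⟩
        constructor
        · intro i hi
          have hi2 : i ∈ Set.range (S.orderEmbOfFin rfl) := by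
            rw [Finset.range_orderEmbOfFin]
            exact hi
          obtain ⟨j, rfl⟩ := hi2
          exact hv1 j
        · intro i hi
          have hi2 : i ∈ Set.range (T.orderEmbOfFin rfl) := by
            rw [Finset.range_orderEmbOfFin]
            exact hi
          obtain ⟨j, rfl⟩ := hi2
          exact hv2 j
    rw [h3]
    exact dmin_le Φ _ _
  exact le_antisymm h1 h2

end

theorem BCA (hT1 : T1_stmt) : BCA_stmt := by
  intro E P J _ _ _ _ _ _ Φ V hdef n a b x y hU ha hb hc1 hc2 hc3 s t f hf hVf
  classical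
  have hU' := BCA_U_of_uniform hU
  -- the sets of indices
  set S : Finset (Fin n) := Finset.univ.map s with hSdef
  set T : Finset (Fin n) := Finset.univ.map t with hTdef
  have hSc : S.card = a := by
    rw [hSdef, Finset.card_map, Finset.card_univ, Fintype.card_fin]
  have hTc : T.card = b := by
    rw [hTdef, Finset.card_map, Finset.card_univ, Fintype.card_fin]
  have hSc' : Sᶜ.card = n - a := by
    rw [Finset.card_compl, hSc, Fintype.card_fin]
  have hTc' : Tᶜ.card = n - b := by
    rw [Finset.card_compl, hTc, Fintype.card_fin]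
  obtain ⟨S', hS'1, hS'2⟩ := Finset.exists_subset_card_eq (s := Sᶜ) (n := a) (by omega)
  obtain ⟨T'', hT''1, hT''2⟩ := Finset.exists_subset_card_eq (s := Tᶜ) (n := b + 1) (by omega)
  have hne : T''.Nonempty := by
    rw [← Finset.card_pos]
    omega
  obtain ⟨o, ho⟩ := hne
  set T' : Finset (Fin n) := T''.erase o with hT'def
  have hT'c : T'.card = b := by
    rw [hT'def, Finset.card_erase_of_mem ho, hT''2]
    rfl
  have hoT : o ∉ T := by
    have := hT''1 ho
    rwa [Finset.mem_compl] at this
  have hoT' : o ∉ T' := Finset.notMem_erase o T''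
  have hSS' : ∀ i ∈ S', i ∉ S := by
    intro i hi
    have := hS'1 hi
    rwa [Finset.mem_compl] at this
  have hTT' : ∀ i ∈ T', i ∉ T := by
    intro i hi
    have := hT''1 (Finset.mem_of_mem_erase hi)
    rwa [Finset.mem_compl] at this
  have hfK1 : ∀ i ∈ S, Φ true (x i) f = 0 := by
    intro i hi
    obtain ⟨k, _, rfl⟩ := Finset.mem_map.mp hi
    exact (mem_Ker.mp hf).1 k
  have hfK2 : ∀ i ∈ T, Φ false (y i) f = 0 := by
    intro i hi
    obtain ⟨k, _, rfl⟩ := Finset.mem_map.mp hi
    exact (mem_Ker.mp hf).2 k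
  -- the functional
  have hr1 := BCA_card hU' S' T' o hoT'
  have hr2 := BCA_card hU' ∅ ∅ o (Finset.notMem_empty o)
  rw [hS'2, hT'c] at hr1
  rw [Finset.card_empty] at hr2
  have hex : ∃ g : E, Φ false (y o) g ∉ (BCA_K Φ x y S' T').map (Φ false (y o)) := by
    by_contra hcon
    push Not at hcon
    have hle : (BCA_K Φ x y ∅ ∅).map (Φ false (y o)) ≤
        (BCA_K Φ x y S' T').map (Φ false (y o)) := by
      rintro w ⟨g, _, rfl⟩
      exact hcon g
    have := Submodule.finrank_mono hle
    rw [hr1, hr2] at this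
    omega
  obtain ⟨g, hg⟩ := hex
  obtain ⟨l, hl1, hl2⟩ := Submodule.exists_le_ker_of_notMem hg
  obtain ⟨α, H, hα0, hα1, hH1, hH2, hH3⟩ := hdef f hVf (y o) l ⟨g, hl1⟩
  -- the deformed configuration
  let xx : ℂ → Fin n → P := fun τ i => if i ∈ S then α τ (x i) else x i
  let yy : ℂ → Fin n → P := fun τ i => if i ∈ T then α τ (y i) else y i
  have hxx0 : xx 0 = x := by
    funext i
    change (if i ∈ S then α 0 (x i) else x i) = x i
    rw [hα0, ite_self]
  have hyy0 : yy 0 = y := by
    funext i
    change (if i ∈ T then α 0 (y i) else y i) = y i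
    rw [hα0, ite_self]
  have hcurve := BCA_curve hT1 (Φ := Φ) xx yy
    (by
      intro i v j
      by_cases hi : i ∈ S
      · have h1 : (fun τ => Φ true (xx τ i) v j) = fun τ => Φ true (α τ (x i)) v j := by
          funext τ
          change Φ true (if i ∈ S then α τ (x i) else x i) v j = _
          rw [if_pos hi]
        rw [h1]
        exact hα1 true (x i) v j
      · have h1 : (fun τ => Φ true (xx τ i) v j) = fun _ => Φ true (x i) v j := by
          funext τ
          change Φ true (if i ∈ S then α τ (x i) else x i) v j = _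
          rw [if_neg hi]
        rw [h1]
        exact PolyFun.const _)
    (by
      intro i v j
      by_cases hi : i ∈ T
      · have h1 : (fun τ => Φ false (yy τ i) v j) = fun τ => Φ false (α τ (y i)) v j := by
          funext τ
          change Φ false (if i ∈ T then α τ (y i) else y i) v j = _
          rw [if_pos hi]
        rw [h1]
        exact hα1 false (y i) v j
      · have h1 : (fun τ => Φ false (yy τ i) v j) = fun _ => Φ false (y i) v j := by
          funext τ
          change Φ false (if i ∈ T then α τ (y i) else y i) v j = _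
          rw [if_neg hi]
        rw [h1]
        exact PolyFun.const _)
    (by rw [hxx0, hyy0]; exact hU')
  have hzero : ∀ τ, BCA_U Φ (xx τ) (yy τ) → l (Φ false (y o) (H τ f)) = 0 := by
    intro τ hτ
    have h1 := BCA_exchange hτ a b hc1 hc2 o S S' T T' hSc hS'2 hTc hT'c hoT hoT'
    have hyo : yy τ o = y o := by
      change (if o ∈ T then α τ (y o) else y o) = y o
      rw [if_neg hoT]
    have h2 : BCA_K Φ (xx τ) (yy τ) S' T' = BCA_K Φ x y S' T' := by
      ext v
      rw [BCA_mem, BCA_mem]
      constructor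
      · rintro ⟨hv1, hv2⟩
        constructor
        · intro i hi
          have h3 := hv1 i hi
          have h4 : xx τ i = x i := by
            change (if i ∈ S then α τ (x i) else x i) = x i
            rw [if_neg (hSS' i hi)]
          rwa [h4] at h3
        · intro i hi
          have h3 := hv2 i hi
          have h4 : yy τ i = y i := by
            change (if i ∈ T then α τ (y i) else y i) = y i
            rw [if_neg (hTT' i hi)]
          rwa [h4] at h3
      · rintro ⟨hv1, hv2⟩
        constructor
        · intro i hi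
          have h3 := hv1 i hi
          have h4 : xx τ i = x i := by
            change (if i ∈ S then α τ (x i) else x i) = x i
            rw [if_neg (hSS' i hi)]
          rwa [h4]
        · intro i hi
          have h3 := hv2 i hi
          have h4 : yy τ i = y i := by
            change (if i ∈ T then α τ (y i) else y i) = y i
            rw [if_neg (hTT' i hi)]
          rwa [h4]
    rw [hyo, h2] at h1
    have h5 : H τ f ∈ BCA_K Φ (xx τ) (yy τ) S T := by
      rw [BCA_mem]
      constructor
      · intro i hi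
        have h4 : xx τ i = α τ (x i) := by
          change (if i ∈ S then α τ (x i) else x i) = α τ (x i)
          rw [if_pos hi]
        rw [h4]
        exact hH2 true (x i) τ (hfK1 i hi)
      · intro i hi
        have h4 : yy τ i = α τ (y i) := by
          change (if i ∈ T then α τ (y i) else y i) = α τ (y i)
          rw [if_pos hi]
        rw [h4]
        exact hH2 false (y i) τ (hfK2 i hi)
    have h6 : Φ false (y o) (H τ f) ∈ (BCA_K Φ x y S' T').map (Φ false (y o)) := by
      rw [← h1]
      exact Submodule.mem_map_of_mem h5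
    exact hl2 h6
  have hpoly : PolyFun (fun τ => l (Φ false (y o) (H τ f))) := by
    have hJ : Fintype J := Fintype.ofFinite J
    have h1 : (fun τ => l (Φ false (y o) (H τ f))) = fun τ =>
        ∑ j ∈ (Finset.univ : Finset J), Φ false (y o) (H τ f) j *
          l (fun k => if j = k then 1 else 0) := by
      funext τ
      rw [LinearMap.pi_apply_eq_sum_univ l (Φ false (y o) (H τ f))]
      rfl
    rw [h1]
    exact PolyFun.sum _ (fun j _ => (hH1 (y o) j).mul (PolyFun.const _))
  exact hH3 (PolyFun.eq_zero_of_cofinite hpoly (hcurve.subset (fun τ hτ hc => hτ (hzero τ hc))) 1)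

end Pool.Agent.SV
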