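import Pool.Agent.helper65.SV.SpecE

/-!
# Project sv: (MP_b5a345_ag), module PCH: characters of a product of cyclic groups
-/

set_option autoImplicit false
set_option linter.unusedSectionVars false

namespace Pool.Agent.SV

open Module

theorem PCH_om_pow (N : ℕ) (hN : N ≠ 0) : om N ^ N = 1 :=
  (Complex.isPrimitiveRoot_exp N hN).pow_eq_one

theorem PCH_om_ne (N : ℕ) (a : ℕ) (h0 : 0 < a) (h1 : a < N) : om N ^ a ≠ 1 :=
  (Complex.isPrimitiveRoot_exp N (by omega)).pow_ne_one_of_pos_of_lt (by omega) h1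

theorem PCH_om_ne_zero (N : ℕ) : om N ≠ 0 := Complex.exp_ne_zero _

theorem PCH_add (N x : ℕ) (a b : ZMod (N + 1)) :
    om (N + 1) ^ (x * (a + b).val) = om (N + 1) ^ (x * a.val) * om (N + 1) ^ (x * b.val) := by
  have h1 : (om (N + 1) ^ x) ^ (N + 1) = 1 := by
    rw [← pow_mul, mul_comm, pow_mul, PCH_om_pow (N + 1) (Nat.succ_ne_zero N), one_pow]
  rw [pow_mul, pow_mul, pow_mul, ← pow_add, ZMod.val_add, ← pow_eq_pow_mod _ h1]

theorem PCH_sum (N : ℕ) (a : ZMod (N + 1)) :
    ∑ b : ZMod (N + 1), om (N + 1) ^ (a.val * b.val) = if a = 0 then ((N + 1 : ℕ) : ℂ) else 0 := by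
  by_cases ha : a = 0
  · rw [if_pos ha]
    have h1 : ∀ b : ZMod (N + 1), om (N + 1) ^ (a.val * b.val) = 1 := by
      intro b
      rw [ha, ZMod.val_zero, Nat.zero_mul, pow_zero]
    rw [Finset.sum_congr rfl (fun b _ => h1 b), Finset.sum_const, Finset.card_univ, ZMod.card,
      nsmul_eq_mul, mul_one]
  · rw [if_neg ha]
    have hpos : 0 < a.val := by
      rcases Nat.eq_zero_or_pos a.val with h | h
      · exact absurd ((ZMod.val_eq_zero a).mp h) ha
      · exact h
    have hlt : a.val < N + 1 := ZMod.val_lt a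
    have hne := PCH_om_ne (N + 1) a.val hpos hlt
    have h1 : (om (N + 1) ^ a.val) ^ (N + 1) = 1 := by
      rw [← pow_mul, mul_comm, pow_mul, PCH_om_pow (N + 1) (Nat.succ_ne_zero N), one_pow]
    have h2 : ∑ b : ZMod (N + 1), om (N + 1) ^ (a.val * b.val) =
        ∑ k ∈ Finset.range (N + 1), (om (N + 1) ^ a.val) ^ k := by
      rw [← Fin.sum_univ_eq_sum_range (fun k => (om (N + 1) ^ a.val) ^ k) (N + 1)]
      refine Finset.sum_congr rfl (fun b _ => ?_)
      rw [pow_mul]
      rfl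
    rw [h2]
    have h3 := mul_geom_sum (om (N + 1) ^ a.val) (N + 1)
    rw [h1, sub_self] at h3
    rcases mul_eq_zero.mp h3 with h4 | h4
    · exact absurd (sub_eq_zero.mp h4) hne
    · exact h4

section
variable {K : Type} [Fintype K] [DecidableEq K] {n : K → ℕ}

theorem PCH_chr_add (χ c c' : Cell n) : chr χ (c + c') = chr χ c * chr χ c' := by
  unfold chr
  rw [← Finset.prod_mul_distrib]
  refine Finset.prod_congr rfl (fun i _ => ?_)
  unfold chy
  rw [Pi.add_apply]
  exact PCH_add (n i) (χ i).val (c i) (c' i)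

theorem PCH_chr_comm (χ c : Cell n) : chr χ c = chr c χ := by
  unfold chr
  refine Finset.prod_congr rfl (fun i _ => ?_)
  unfold chy
  rw [mul_comm]

theorem PCH_chr_ne (χ c : Cell n) : chr χ c ≠ 0 := by
  unfold chr
  rw [Finset.prod_ne_zero_iff]
  intro i _
  unfold chy
  exact pow_ne_zero _ (PCH_om_ne_zero _)

theorem PCH_chr_zero (χ : Cell n) : chr χ 0 = 1 := by
  unfold chr
  refine Finset.prod_eq_one (fun i _ => ?_)
  unfold chy
  rw [Pi.zero_apply, ZMod.val_zero, Nat.mul_zero, pow_zero]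

theorem PCH_chr_sum (c : Cell n) :
    ∑ χ : Cell n, chr χ c = if c = 0 then (Fintype.card (Cell n) : ℂ) else 0 := by
  have h1 : ∑ χ : Cell n, chr χ c =
      ∏ i, ∑ a : ZMod (n i + 1), om (n i + 1) ^ (a.val * (c i).val) := by
    rw [Finset.prod_univ_sum, Fintype.piFinset_univ]
    rfl
  have h2 : ∀ i, ∑ a : ZMod (n i + 1), om (n i + 1) ^ (a.val * (c i).val) =
      if c i = 0 then ((n i + 1 : ℕ) : ℂ) else 0 := by
    intro i
    rw [← PCH_sum (n i) (c i)]
    refine Finset.sum_congr rfl (fun a _ => ?_)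
    rw [mul_comm]
  rw [h1, Finset.prod_congr rfl (fun i _ => h2 i)]
  by_cases hc : c = 0
  · rw [if_pos hc]
    have h3 : ∀ i, (if c i = 0 then ((n i + 1 : ℕ) : ℂ) else 0) = ((n i + 1 : ℕ) : ℂ) := by
      intro i
      rw [if_pos]
      rw [hc]
      rfl
    rw [Finset.prod_congr rfl (fun i _ => h3 i), ← Nat.cast_prod]
    congr 1
    rw [Fintype.card_pi]
    refine Finset.prod_congr rfl (fun i _ => ?_)
    rw [ZMod.card]
  · rw [if_neg hc]
    have h3 : ∃ i, c i ≠ 0 := by
      by_contra hcon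
      push Not at hcon
      exact hc (funext hcon)
    obtain ⟨i, hi⟩ := h3
    exact Finset.prod_eq_zero (Finset.mem_univ i) (if_neg hi)

theorem PCH_inv (F : Cell n → Polynomial ℂ) (c : Cell n) :
    Polynomial.C (Fintype.card (Cell n) : ℂ) * F c =
      ∑ χ, Polynomial.C (chr χ (-c)) * hatF F χ := by
  have h1 : ∀ χ : Cell n, Polynomial.C (chr χ (-c)) * hatF F χ =
      ∑ c' : Cell n, Polynomial.C (chr χ (c' - c)) * F c' := by
    intro χ
    unfold hatF
    rw [Finset.mul_sum]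
    refine Finset.sum_congr rfl (fun c' _ => ?_)
    rw [← mul_assoc, ← Polynomial.C_mul, ← PCH_chr_add]
    congr 2
    rw [neg_add_eq_sub]
  rw [Finset.sum_congr rfl (fun χ _ => h1 χ), Finset.sum_comm]
  have h2 : ∀ c' : Cell n, ∑ χ : Cell n, Polynomial.C (chr χ (c' - c)) * F c' =
      if c' = c then Polynomial.C (Fintype.card (Cell n) : ℂ) * F c' else 0 := by
    intro c'
    rw [← Finset.sum_mul, ← map_sum, PCH_chr_sum]
    by_cases hc : c' = c
    · rw [if_pos hc, if_pos (sub_eq_zero.mpr hc)]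
    · rw [if_neg hc, if_neg (fun h => hc (sub_eq_zero.mp h)), Polynomial.C_0, zero_mul]
  rw [Finset.sum_congr rfl (fun c' _ => h2 c'), Finset.sum_ite_eq' Finset.univ c,
    if_pos (Finset.mem_univ c)]

end

theorem PCH : PCH_stmt := by
  intro K _ _ n
  exact ⟨PCH_chr_add, PCH_chr_comm, PCH_chr_ne, PCH_chr_zero, PCH_chr_sum, PCH_inv,
    fun i a => PCH_sum (n i) a⟩

end Pool.Agent.SV
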